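import Mathlib

set_option autoImplicit false
set_option linter.unusedSectionVars false

/-!
# Residual finiteness for elementary abelian 2-groups
-/

namespace Pool.Agent.Results.MP_4d6048_al.ElementaryTwoGroups

universe u

/-- The relators `a_i b_j (b_{i+j} a_{i-j})⁻¹`, where `a_i` is the generator `Sum.inl i` and `b_j`
is the generator `Sum.inr j`. -/
def rels (X : Type u) [AddCommGroup X] : Set (FreeGroup (X ⊕ X)) :=
  {r | ∃ i j : X, r = FreeGroup.of (Sum.inl i) * FreeGroup.of (Sum.inr j) *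
    (FreeGroup.of (Sum.inr (i + j)) * FreeGroup.of (Sum.inl (i - j)))⁻¹}

/-- The fundamental group of the square complex, given by its presentation. -/
abbrev Pi1 (X : Type u) [AddCommGroup X] : Type u := PresentedGroup (rels X)

/-- Residual finiteness. -/
def ResiduallyFinite (G : Type u) [Group G] : Prop :=
  ∀ g : G, g ≠ 1 → ∃ (Q : Type) (_ : Group Q) (_ : Finite Q) (f : G →* Q), f g ≠ 1

section

variable {X : Type u} [AddCommGroup X]

/-- The generator `a_i`. -/
def a (i : X) : Pi1 X := PresentedGroup.of (Sum.inl i)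

/-- The generator `b_j`. -/
def b (j : X) : Pi1 X := PresentedGroup.of (Sum.inr j)

theorem rel (i j : X) : a i * b j = b (i + j) * a (i - j) := by
  rw [← mul_inv_eq_one]
  exact PresentedGroup.one_of_mem (rels := rels X) ⟨i, j, rfl⟩

/-- The elements `z_k = a_0⁻¹ a_k`. -/
def z (k : X) : Pi1 X := (a 0)⁻¹ * a k

/-- The element `a_0 b_0`. -/
def t : Pi1 X := a 0 * b 0

variable (hX : ∀ i : X, i + i = 0)

include hX

theorem rel' (i j : X) : a i * b j = b (i + j) * a (i + j) := by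
  have : i - j = i + j := by
    rw [sub_eq_iff_eq_add, add_assoc, hX, add_zero]
  rw [rel, this]

theorem rel'' (i j : X) : a i * b j = a (i + j) * b 0 := by
  rw [rel' hX i j, rel' hX (i + j) 0, add_zero]

theorem a_eq (k : X) : a k = a 0 * z k := by unfold z; group

theorem b_eq (k : X) : b k = z k * b 0 := by
  have := rel'' hX 0 k
  rw [zero_add] at this
  unfold z
  rw [mul_assoc, ← this]
  group

theorem z_add (i j : X) : z (i + j) = z i * z j := by
  have h1 := rel'' hX i j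
  rw [b_eq hX j, a_eq hX i, a_eq hX (i + j)] at h1
  have h2 : a 0 * (z i * z j) * b 0 = a 0 * z (i + j) * b 0 := by
    rw [← h1]; group
  exact (mul_left_cancel (mul_right_cancel h2)).symm

theorem z_zero : z (0 : X) = 1 := by unfold z; group

theorem z_self (i : X) : z i * z i = 1 := by
  rw [← z_add hX, hX, z_zero hX]

theorem comm0 : a (0 : X) * b 0 = b 0 * a 0 := by
  have := rel (0 : X) 0
  rwa [add_zero, sub_zero] at this

theorem conj_a (k : X) : a 0 * z k * (a 0)⁻¹ = z k * (t * z k * t⁻¹) := by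
  have h1 := rel' hX k 0
  rw [add_zero, b_eq hX k, a_eq hX k] at h1
  -- a z b = z b a z
  have h2 : a 0 * z k * (a 0)⁻¹ * t = z k * t * z k := by
    unfold t
    calc a 0 * z k * (a 0)⁻¹ * (a 0 * b 0) = a 0 * z k * b 0 := by group
      _ = z k * b 0 * (a 0 * z k) := h1
      _ = z k * (b 0 * a 0) * z k := by group
      _ = _ := by rw [← comm0 hX]
  rw [eq_comm, ← mul_assoc, ← mul_assoc, mul_inv_eq_iff_eq_mul]
  exact h2.symm

theorem t_comm : t * a (0 : X) = a 0 * t := by
  unfold t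
  rw [mul_assoc, ← comm0 hX]

/-- Conjugates by powers of `t`. -/
def zt (n : ℕ) (k : X) : Pi1 X := t ^ n * z k * (t ^ n)⁻¹

theorem conj_t_zt (n : ℕ) (k : X) : t * zt n k * t⁻¹ = zt (n + 1) k := by
  unfold zt
  rw [pow_succ']
  group

theorem conj_a_zt (n : ℕ) (k : X) : a 0 * zt n k * (a 0)⁻¹ = zt n k * zt (n + 1) k := by
  have h1 : Commute (a (0 : X)) (t ^ n) := Commute.pow_right (t_comm hX).symm n
  unfold zt
  calc a 0 * (t ^ n * z k * (t ^ n)⁻¹) * (a 0)⁻¹
      = (a 0 * t ^ n) * z k * (a 0 * t ^ n)⁻¹ := by group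
    _ = (t ^ n * a 0) * z k * (t ^ n * a 0)⁻¹ := by rw [h1.eq]
    _ = t ^ n * (a 0 * z k * (a 0)⁻¹) * (t ^ n)⁻¹ := by group
    _ = t ^ n * (z k * (t * z k * t⁻¹)) * (t ^ n)⁻¹ := by rw [conj_a hX]
    _ = _ := by rw [pow_succ]; group

theorem zt_add (n : ℕ) (i j : X) : zt n (i + j) = zt n i * zt n j := by
  unfold zt
  rw [z_add hX]; group

theorem zt_zero (n : ℕ) : zt n (0 : X) = 1 := by
  unfold zt
  rw [z_zero hX]; group

theorem z_comm (i j : X) : z i * z j = z j * z i := by
  rw [← z_add hX, add_comm, z_add hX]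

theorem zt_z (i : X) : zt 0 i = z i := by unfold zt; group

theorem comm_shift {n m : ℕ} {i j : X} (h : Commute (zt n i) (zt m j)) :
    Commute (zt (n + 1) i) (zt (m + 1) j) := by
  rw [← conj_t_zt hX, ← conj_t_zt hX]
  exact (Commute.conj_iff t).2 h

theorem comm_one (i j : X) : Commute (z i) (zt 1 j) := by
  have h1 := conj_a_zt hX 0 (j + i)
  rw [zt_add hX] at h1
  have h2 : a 0 * (zt 0 j * zt 0 i) * (a 0)⁻¹ =
      (a 0 * zt 0 j * (a 0)⁻¹) * (a 0 * zt 0 i * (a 0)⁻¹) := by group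
  rw [h2, conj_a_zt hX, conj_a_zt hX, zt_add hX, zt_z hX, zt_z hX, zero_add] at h1
  have : z j * (zt 1 j * z i) * zt 1 i = z j * (z i * zt 1 j) * zt 1 i := by
    calc _ = z j * zt 1 j * (z i * zt 1 i) := by group
      _ = _ := by rw [h1]; group
  exact (mul_left_cancel (mul_right_cancel this)).symm

theorem comm_n (n : ℕ) (i j : X) : Commute (z i) (zt n j) := by
  induction n using Nat.strong_induction_on generalizing i j with
  | _ n ih =>
    match n, ih with
    | 0, _ => rw [zt_z hX]; exact z_comm hX i j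
    | 1, _ => exact comm_one hX i j
    | n + 2, ih =>
      have p1 : Commute (z i) (zt (n + 1) j) := ih (n + 1) (by omega) i j
      have p0 : Commute (z i) (zt n j) := ih n (by omega) i j
      have c2 : Commute (zt 1 i) (zt (n + 1) j) := by
        rw [← zt_z hX i] at p0
        exact comm_shift hX p0
      have c3 : Commute (zt 1 i) (zt (n + 2) j) := by
        rw [← zt_z hX i] at p1
        exact comm_shift hX p1
      have hU : Commute (z i * zt 1 i) (zt (n + 1) j * zt (n + 2) j) := by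
        have e1 := conj_a_zt hX 0 i
        rw [zt_z hX, zero_add] at e1
        rw [← e1, ← conj_a_zt hX]
        exact (Commute.conj_iff _).2 p1
      have hV : Commute (zt 1 i)⁻¹ (zt (n + 1) j * zt (n + 2) j) := (c2.mul_right c3).inv_left
      have h1 := hU.mul_left hV
      rw [mul_inv_cancel_right] at h1
      have h2 := p1.inv_right.mul_right h1
      rwa [inv_mul_cancel_left] at h2

theorem comm_all (n m : ℕ) (i j : X) : Commute (zt n i) (zt m j) := by
  have key : ∀ (k n : ℕ) (i j : X), Commute (zt k i) (zt (n + k) j) := by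
    intro k
    induction k with
    | zero => intro n i j; rw [zt_z hX]; exact comm_n hX _ i j
    | succ k ih => intro n i j; exact comm_shift hX (ih n i j)
  rcases le_total n m with h | h
  · obtain ⟨k, rfl⟩ := Nat.exists_eq_add_of_le h
    rw [add_comm]; exact key n k i j
  · obtain ⟨k, rfl⟩ := Nat.exists_eq_add_of_le h
    rw [add_comm]; exact (key m k j i).symm

/-- The generators of the abelian subgroup. -/
def gens (X : Type u) [AddCommGroup X] : Set (Pi1 X) := {g | ∃ (n : ℕ) (k : X), g = zt n k}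

/-- The abelian subgroup. -/
def N (X : Type u) [AddCommGroup X] : Subgroup (Pi1 X) := Subgroup.closure (gens X)

theorem zt_mem (n : ℕ) (k : X) : zt n k ∈ N X := Subgroup.subset_closure ⟨n, k, rfl⟩

theorem conj_mem_of {c : Pi1 X} (hc : ∀ n k, c * zt n k * c⁻¹ ∈ N X) {g : Pi1 X}
    (hg : g ∈ N X) : c * g * c⁻¹ ∈ N X := by
  have : Subgroup.closure (gens X) ≤ (N X).comap (MulAut.conj c).toMonoidHom := by
    rw [Subgroup.closure_le]
    rintro _ ⟨n, k, rfl⟩
    exact hc n k
  exact this hg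

theorem conj_t_mem {g : Pi1 X} (hg : g ∈ N X) : t * g * t⁻¹ ∈ N X :=
  conj_mem_of hX (fun n k => by rw [conj_t_zt hX]; exact zt_mem hX _ _) hg

theorem conj_a_mem {g : Pi1 X} (hg : g ∈ N X) : a 0 * g * (a 0)⁻¹ ∈ N X :=
  conj_mem_of hX (fun n k => by
    rw [conj_a_zt hX]; exact mul_mem (zt_mem hX _ _) (zt_mem hX _ _)) hg

theorem conj_pow_mem (m l : ℕ) {g : Pi1 X} (hg : g ∈ N X) :
    (t ^ l * a 0 ^ m) * g * (t ^ l * a 0 ^ m)⁻¹ ∈ N X := by
  have h1 : ∀ m : ℕ, a 0 ^ m * g * (a 0 ^ m)⁻¹ ∈ N X := by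
    intro m
    induction m with
    | zero => simpa using hg
    | succ m ih =>
      have := conj_a_mem hX ih
      rw [pow_succ']
      convert this using 1
      group
  have h2 : ∀ l : ℕ, t ^ l * (a 0 ^ m * g * (a 0 ^ m)⁻¹) * (t ^ l)⁻¹ ∈ N X := by
    intro l
    induction l with
    | zero => simpa using h1 m
    | succ l ih =>
      have := conj_t_mem hX ih
      rw [pow_succ']
      convert this using 1
      group
  convert h2 l using 1
  group

/-- Elements in normal form. -/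
def NF (g : Pi1 X) : Prop := ∃ (m l : ℕ) (n : Pi1 X) (p q : ℤ), n ∈ N X ∧
    g = (t ^ l * a 0 ^ m)⁻¹ * n * (a 0 ^ p * t ^ q)

theorem NF_inv_a {g : Pi1 X} (h : NF g) : NF ((a 0)⁻¹ * g) := by
  obtain ⟨m, l, n, p, q, hn, rfl⟩ := h
  refine ⟨m + 1, l, n, p, q, hn, ?_⟩
  rw [pow_succ]
  group

theorem t_comm_pow (m : ℕ) : t * a (0 : X) ^ m = a 0 ^ m * t :=
  (Commute.pow_right (t_comm hX) m : Commute t (a (0 : X) ^ m))

theorem a_comm_pow (l : ℕ) : a (0 : X) * t ^ l = t ^ l * a 0 :=
  (Commute.pow_right (t_comm hX).symm l : Commute (a (0 : X)) (t ^ l))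

theorem t_comm_zpow (m : ℤ) : t * a (0 : X) ^ m = a 0 ^ m * t :=
  (Commute.zpow_right (t_comm hX) m : Commute t (a (0 : X) ^ m))

theorem NF_inv_t {g : Pi1 X} (h : NF g) : NF (t⁻¹ * g) := by
  obtain ⟨m, l, n, p, q, hn, rfl⟩ := h
  refine ⟨m, l + 1, n, p, q, hn, ?_⟩
  rw [pow_succ, mul_assoc (t ^ l) t, t_comm_pow hX]
  group

theorem NF_a {g : Pi1 X} (h : NF g) : NF (a 0 * g) := by
  obtain ⟨m, l, n, p, q, hn, rfl⟩ := h
  refine ⟨m, l, a 0 * n * (a 0)⁻¹, p + 1, q, conj_a_mem hX hn, ?_⟩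
  have h1 : a (0 : X) * (t ^ l * a 0 ^ m)⁻¹ = (t ^ l * a 0 ^ m)⁻¹ * a 0 := by
    rw [mul_inv_eq_iff_eq_mul, mul_assoc, eq_inv_mul_iff_mul_eq]
    rw [← mul_assoc (a 0), a_comm_pow hX, mul_assoc, mul_assoc, ← pow_succ', ← pow_succ]
  rw [add_comm p 1, zpow_add, zpow_one]
  calc a 0 * ((t ^ l * a 0 ^ m)⁻¹ * n * (a 0 ^ p * t ^ q))
      = (a 0 * (t ^ l * a 0 ^ m)⁻¹) * n * (a 0 ^ p * t ^ q) := by group
    _ = ((t ^ l * a 0 ^ m)⁻¹ * a 0) * n * (a 0 ^ p * t ^ q) := by rw [h1]
    _ = _ := by group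

theorem NF_t {g : Pi1 X} (h : NF g) : NF (t * g) := by
  obtain ⟨m, l, n, p, q, hn, rfl⟩ := h
  refine ⟨m, l, t * n * t⁻¹, p, q + 1, conj_t_mem hX hn, ?_⟩
  have h1 : t * (t ^ l * a (0 : X) ^ m)⁻¹ = (t ^ l * a 0 ^ m)⁻¹ * t := by
    rw [mul_inv_eq_iff_eq_mul, mul_assoc, eq_inv_mul_iff_mul_eq, mul_assoc, ← t_comm_pow hX,
      ← mul_assoc, ← mul_assoc, ← pow_succ, ← pow_succ']
  calc t * ((t ^ l * a 0 ^ m)⁻¹ * n * (a 0 ^ p * t ^ q))
      = (t * (t ^ l * a 0 ^ m)⁻¹) * n * (a 0 ^ p * t ^ q) := by group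
    _ = ((t ^ l * a 0 ^ m)⁻¹ * t) * n * (a 0 ^ p * t ^ q) := by rw [h1]
    _ = (t ^ l * a 0 ^ m)⁻¹ * (t * n * t⁻¹) * ((t * a 0 ^ p) * t ^ q) := by group
    _ = (t ^ l * a 0 ^ m)⁻¹ * (t * n * t⁻¹) * ((a 0 ^ p * t) * t ^ q) := by rw [t_comm_zpow hX]
    _ = _ := by rw [add_comm q 1, zpow_add, zpow_one]; group

theorem NF_z {g : Pi1 X} (k : X) (h : NF g) : NF (z k * g) := by
  obtain ⟨m, l, n, p, q, hn, rfl⟩ := h
  refine ⟨m, l, (t ^ l * a 0 ^ m) * z k * (t ^ l * a 0 ^ m)⁻¹ * n, p, q,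
    mul_mem (conj_pow_mem hX m l ?_) hn, by group⟩
  rw [← zt_z hX]
  exact zt_mem hX 0 k

theorem z_inv (k : X) : (z k)⁻¹ = z k := inv_eq_of_mul_eq_one_left (z_self hX k)

theorem normal_form (g : Pi1 X) : NF g := by
  have hg : g ∈ Subgroup.closure (Set.range (PresentedGroup.of : X ⊕ X → Pi1 X)) := by
    rw [PresentedGroup.closure_range_of]; trivial
  have hb : ∀ j : X, b j = z j * ((a 0)⁻¹ * t) := by
    intro j
    rw [b_eq hX]; unfold t; group
  induction hg using Subgroup.closure_induction_left with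
  | one => exact ⟨0, 0, 1, 0, 0, one_mem _, by group⟩
  | mul_left x hx y _ ih =>
    obtain ⟨i | j, rfl⟩ := hx
    · show NF (a i * y)
      rw [a_eq hX, mul_assoc]
      exact NF_a hX (NF_z hX _ ih)
    · show NF (b j * y)
      rw [hb, mul_assoc, mul_assoc]
      exact NF_z hX _ (NF_inv_a hX (NF_t hX ih))
  | inv_mul_cancel x hx y _ ih =>
    obtain ⟨i | j, rfl⟩ := hx
    · show NF ((a i)⁻¹ * y)
      rw [a_eq hX, mul_inv_rev, z_inv hX, mul_assoc]
      exact NF_z hX _ (NF_inv_a hX ih)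
    · show NF ((b j)⁻¹ * y)
      rw [hb, mul_inv_rev, mul_inv_rev, inv_inv, z_inv hX, mul_assoc, mul_assoc]
      exact NF_inv_t hX (NF_a hX (NF_z hX _ ih))

/-- Products. -/
def Q (c : ℕ → X) : ℕ → Pi1 X
  | 0 => 1
  | K + 1 => Q c K * zt K (c K)

theorem Q_comm (c : ℕ → X) (K n : ℕ) (i : X) : Commute (Q c K) (zt n i) := by
  induction K with
  | zero => exact Commute.one_left _
  | succ K ih => exact ih.mul_left (comm_all hX _ _ _ _)

theorem Q_add (c c' : ℕ → X) (K : ℕ) : Q (c + c') K = Q c K * Q c' K := by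
  induction K with
  | zero => simp [Q]
  | succ K ih =>
    simp only [Q, ih, Pi.add_apply, zt_add hX]
    have := (Q_comm hX c' K K (c K)).eq
    calc Q c K * Q c' K * (zt K (c K) * zt K (c' K))
        = Q c K * (Q c' K * zt K (c K)) * zt K (c' K) := by group
      _ = _ := by rw [this]; group

theorem Q_one {c : ℕ → X} {K : ℕ} (h : ∀ k < K, c k = 0) : Q c K = 1 := by
  induction K with
  | zero => rfl
  | succ K ih =>
    simp only [Q]
    rw [ih (fun k hk => h k (by omega)), h K (by omega), zt_zero hX, one_mul]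

theorem Q_extend {c : ℕ → X} {K : ℕ} (h : ∀ k, K ≤ k → c k = 0) (m : ℕ) :
    Q c (K + m) = Q c K := by
  induction m with
  | zero => rfl
  | succ m ih =>
    rw [← add_assoc]
    simp only [Q]
    rw [ih, h (K + m) (by omega), zt_zero hX, mul_one]

theorem exists_Q {n : Pi1 X} (hn : n ∈ N X) : ∃ (c : ℕ → X) (K : ℕ), (∀ k, K ≤ k → c k = 0) ∧
    n = Q c K := by
  classical
  unfold N at hn
  induction hn using Subgroup.closure_induction with
  | mem x hx =>
    obtain ⟨n, k, rfl⟩ := hx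
    refine ⟨Pi.single n k, n + 1, fun j hj => Pi.single_eq_of_ne (by omega) _, ?_⟩
    simp only [Q]
    rw [Q_one hX (fun j hj => Pi.single_eq_of_ne (by omega) _), Pi.single_eq_same, one_mul]
  | one => exact ⟨0, 0, fun _ _ => rfl, rfl⟩
  | mul x y _ _ hx hy =>
    obtain ⟨c, K, h1, rfl⟩ := hx
    obtain ⟨c', K', h1', rfl⟩ := hy
    refine ⟨c + c', K + K', fun k hk => ?_, ?_⟩
    · rw [Pi.add_apply, h1 k (by omega), h1' k (by omega), add_zero]
    · rw [Q_add hX, Q_extend hX h1, add_comm K K', Q_extend hX h1']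
  | inv x _ hx =>
    obtain ⟨c, K, h1, rfl⟩ := hx
    refine ⟨c, K, h1, ?_⟩
    apply inv_eq_of_mul_eq_one_left
    rw [← Q_add hX]
    apply Q_one hX
    intro k _
    exact hX _

end

/-! ### Finite quotients -/

section

variable {X : Type u} [AddCommGroup X]

/-- The homomorphisms to an abelian group. -/
def toAb {A : Type*} [CommGroup A] (u v : A) : Pi1 X →* A :=
  PresentedGroup.toGroup (f := Sum.elim (fun _ => u) (fun _ => v)) (by
    rintro _ ⟨i, j, rfl⟩
    simp only [map_mul, map_inv, FreeGroup.lift_apply_of, Sum.elim_inl, Sum.elim_inr]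
    rw [mul_comm v u, mul_inv_cancel])

theorem toAb_a {A : Type*} [CommGroup A] (u v : A) (i : X) : toAb u v (a i) = u :=
  PresentedGroup.toGroup.of _

theorem toAb_b {A : Type*} [CommGroup A] (u v : A) (j : X) : toAb u v (b j) = v :=
  PresentedGroup.toGroup.of _

theorem exists_of_int {G : Type u} [Group G] (f : G →* Multiplicative ℤ) {g : G}
    (h : f g ≠ 1) : ∃ (Q : Type) (_ : Group Q) (_ : Finite Q) (f : G →* Q), f g ≠ 1 := by
  set n : ℤ := Multiplicative.toAdd (f g) with hn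
  have hn0 : n ≠ 0 := fun h' => h (by
    have : f g = Multiplicative.ofAdd n := rfl
    rw [this, h']; rfl)
  let r : Multiplicative ℤ →* Multiplicative (ZMod (n.natAbs + 1)) :=
    AddMonoidHom.toMultiplicative (Int.castAddHom (ZMod (n.natAbs + 1)))
  refine ⟨Multiplicative (ZMod (n.natAbs + 1)), inferInstance, inferInstance, r.comp f, ?_⟩
  intro h1
  have h2 : ((n : ℤ) : ZMod (n.natAbs + 1)) = 0 := h1
  rw [ZMod.intCast_zmod_eq_zero_iff_dvd] at h2
  have h3 := Int.natAbs_dvd_natAbs.2 h2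
  simp only [Int.natAbs_natCast] at h3
  have h4 := Nat.le_of_dvd (by omega) h3
  have h5 : ((n.natAbs : ℤ) + 1).natAbs = n.natAbs + 1 := by omega
  omega

variable (hX : ∀ i : X, i + i = 0)

/-- Affine permutations. -/
def aff {F : Type*} [Field F] (r : Fˣ) (s : F) : Equiv.Perm F where
  toFun v := r * v + s
  invFun v := ↑r⁻¹ * (v - s)
  left_inv v := by simp
  right_inv v := by simp

theorem aff_app {F : Type*} [Field F] (r : Fˣ) (s v : F) : aff r s v = r * v + s := rfl

include hX in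
theorem aff_rels {F : Type*} [Field F] [CharP F 2] (r x : Fˣ) (χ : X →+ F)
    (hrx : (r : F) * (1 + x) = 1) : ∀ w ∈ rels X, FreeGroup.lift (Sum.elim
      (fun i => aff r (χ i)) (fun j => aff x ((1 + x) * χ j))) w = 1 := by
  rintro _ ⟨i, j, rfl⟩
  have h2 : (2 : F) = 0 := CharTwo.two_eq_zero
  have hij : i - j = i + j := by
    rw [sub_eq_iff_eq_add, add_assoc, hX, add_zero]
  rw [map_mul, map_mul, map_inv, map_mul, FreeGroup.lift_apply_of, FreeGroup.lift_apply_of,
    FreeGroup.lift_apply_of, FreeGroup.lift_apply_of, mul_inv_eq_one, hij]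
  ext1 v
  simp only [Equiv.Perm.mul_apply, Sum.elim_inl, Sum.elim_inr, aff_app, map_add]
  linear_combination (χ j) * hrx - (x * χ i + x * χ j) * h2

/-- The affine representation. -/
def rep {F : Type*} [Field F] [CharP F 2] (r x : Fˣ) (χ : X →+ F)
    (hrx : (r : F) * (1 + x) = 1) : Pi1 X →* Equiv.Perm F :=
  PresentedGroup.toGroup (aff_rels hX r x χ hrx)

theorem rep_a {F : Type*} [Field F] [CharP F 2] (r x : Fˣ) (χ : X →+ F)
    (hrx : (r : F) * (1 + x) = 1) (i : X) : rep hX r x χ hrx (a i) = aff r (χ i) :=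
  PresentedGroup.toGroup.of _

theorem rep_b {F : Type*} [Field F] [CharP F 2] (r x : Fˣ) (χ : X →+ F)
    (hrx : (r : F) * (1 + x) = 1) (j : X) : rep hX r x χ hrx (b j) = aff x ((1 + x) * χ j) :=
  PresentedGroup.toGroup.of _

theorem rep_t {F : Type*} [Field F] [CharP F 2] (r x : Fˣ) (χ : X →+ F)
    (hrx : (r : F) * (1 + x) = 1) : rep hX r x χ hrx t = aff (r * x) 0 := by
  unfold t
  rw [map_mul, rep_a, rep_b]
  ext1 v
  simp [aff_app, mul_assoc]

theorem aff_pow {F : Type*} [Field F] (r : Fˣ) (n : ℕ) : aff r 0 ^ n = aff (r ^ n) 0 := by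
  induction n with
  | zero => ext1 v; simp [aff_app]
  | succ n ih =>
    rw [pow_succ, ih]
    ext1 v
    simp [aff_app, pow_succ, mul_assoc]

theorem rep_z {F : Type*} [Field F] [CharP F 2] (r x : Fˣ) (χ : X →+ F)
    (hrx : (r : F) * (1 + x) = 1) (k : X) :
    rep hX r x χ hrx (z k) = aff 1 (↑r⁻¹ * χ k) := by
  unfold z
  rw [map_mul, map_inv, rep_a, rep_a, inv_mul_eq_iff_eq_mul]
  ext1 v
  simp [aff_app, mul_add]

theorem rep_zt {F : Type*} [Field F] [CharP F 2] (r x : Fˣ) (χ : X →+ F)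
    (hrx : (r : F) * (1 + x) = 1) (n : ℕ) (k : X) :
    rep hX r x χ hrx (zt n k) = aff 1 (↑r⁻¹ * (((r : F) * x) ^ n * χ k)) := by
  unfold zt
  rw [map_mul, map_mul, map_inv, map_pow, rep_t, rep_z, aff_pow, mul_inv_eq_iff_eq_mul]
  ext1 v
  simp [aff_app]
  ring

theorem rep_Q {F : Type*} [Field F] [CharP F 2] (r x : Fˣ) (χ : X →+ F)
    (hrx : (r : F) * (1 + x) = 1) (c : ℕ → X) (K : ℕ) :
    rep hX r x χ hrx (Q c K) =
      aff 1 (↑r⁻¹ * ∑ k ∈ Finset.range K, ((r : F) * x) ^ k * χ (c k)) := by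
  induction K with
  | zero =>
    simp only [Q, map_one, Finset.range_zero, Finset.sum_empty, mul_zero]
    ext1 v
    simp [aff_app]
  | succ K ih =>
    simp only [Q, map_mul, ih, rep_zt, Finset.sum_range_succ]
    ext1 v
    simp [aff_app]
    ring

include hX in
open Polynomial in
theorem exists_rep {c : ℕ → X} {K k₀ : ℕ} (hk : k₀ < K) (hc : c k₀ ≠ 0) :
    ∃ (Q' : Type) (_ : Group Q') (_ : Finite Q') (f : Pi1 X →* Q'), f (Q c K) ≠ 1 := by
  classical
  have : Fact (Nat.Prime 2) := ⟨Nat.prime_two⟩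
  let _ : Module (ZMod 2) X := AddCommGroup.zmodModule (n := 2) (fun x => by rw [two_nsmul, hX])
  obtain ⟨χ₀, hχ₀⟩ : ∃ χ₀ : Module.Dual (ZMod 2) X, χ₀ (c k₀) ≠ 0 := by
    by_contra hcon
    push Not at hcon
    exact hc ((Module.forall_dual_apply_eq_zero_iff (ZMod 2) _).1 hcon)
  let P : (ZMod 2)[X] := ∑ k ∈ Finset.range K, Polynomial.C (χ₀ (c k)) * Polynomial.X ^ k
  have hP : P.coeff k₀ = χ₀ (c k₀) := by
    simp only [P, Polynomial.finsetSum_coeff, Polynomial.coeff_C_mul, Polynomial.coeff_X_pow]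
    rw [Finset.sum_eq_single k₀]
    · simp
    · intro b _ hb
      rw [if_neg (Ne.symm hb), mul_zero]
    · intro h
      exact absurd (Finset.mem_range.2 hk) h
  have hP0 : P ≠ 0 := by
    intro h
    rw [h, Polynomial.coeff_zero] at hP
    exact hχ₀ hP.symm
  have hPd : P.natDegree ≤ K := by
    apply Polynomial.natDegree_sum_le_of_forall_le
    intro k hk
    exact (Polynomial.natDegree_C_mul_X_pow_le _ _).trans (Finset.mem_range.1 hk).le
  let F := GaloisField 2 (K + 2)
  have : Finite F := by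
    apply Nat.finite_of_card_ne_zero
    rw [GaloisField.card 2 (K + 2) (by omega)]
    positivity
  let f : F[X] := P.map (algebraMap (ZMod 2) F) * (Polynomial.X * (Polynomial.X + 1))
  have hf : f ≠ 0 := by
    apply mul_ne_zero
    · rwa [Ne, Polynomial.map_eq_zero]
    · exact mul_ne_zero Polynomial.X_ne_zero (Polynomial.monic_X_add_C 1).ne_zero
  have hfd : f.natDegree ≤ K + 2 := by
    refine Polynomial.natDegree_mul_le.trans ?_
    rw [Polynomial.natDegree_map]
    have : (Polynomial.X * (Polynomial.X + 1) : F[X]).natDegree ≤ 2 := by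
      refine Polynomial.natDegree_mul_le.trans ?_
      have h1 : (Polynomial.X + 1 : F[X]).natDegree = 1 := Polynomial.natDegree_X_add_C 1
      rw [h1, Polynomial.natDegree_X]
    omega
  obtain ⟨θ, hθ⟩ := Polynomial.exists_eval_ne_zero_of_natDegree_lt_card f hf (by
    rw [← Nat.cast_card, GaloisField.card 2 (K + 2) (by omega)]
    have : K + 2 < 2 ^ (K + 2) := Nat.lt_two_pow_self
    exact_mod_cast hfd.trans_lt this)
  simp only [f, eval_mul, eval_X, eval_add, eval_one] at hθ
  have h1 := left_ne_zero_of_mul hθ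
  have h2 := left_ne_zero_of_mul (right_ne_zero_of_mul hθ)
  have h3 := right_ne_zero_of_mul (right_ne_zero_of_mul hθ)
  have two : (2 : F) = 0 := CharTwo.two_eq_zero
  let r : Fˣ := Units.mk0 (θ + 1) h3
  let x : Fˣ := Units.mk0 (θ / (θ + 1)) (div_ne_zero h2 h3)
  have hrx' : (r : F) * x = θ := by
    show (θ + 1) * (θ / (θ + 1)) = θ
    rw [mul_comm, div_mul_cancel₀ _ h3]
  have hrx : (r : F) * (1 + x) = 1 := by
    have hr : (r : F) = θ + 1 := rfl
    rw [mul_add, hrx', hr]
    linear_combination θ * two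
  let χ : X →+ F := (algebraMap (ZMod 2) F).toAddMonoidHom.comp χ₀.toAddMonoidHom
  refine ⟨Equiv.Perm F, inferInstance, inferInstance, rep hX r x χ hrx, ?_⟩
  rw [rep_Q, hrx']
  intro h
  have h4 := congrArg (fun g : Equiv.Perm F => g 0) h
  simp only [aff_app, mul_zero, zero_add, Equiv.Perm.one_apply] at h4
  have h5 : ∑ k ∈ Finset.range K, θ ^ k * χ (c k) = 0 := by
    rcases mul_eq_zero.1 h4 with h | h
    · exact absurd h (r⁻¹).ne_zero
    · exact h
  apply h1
  rw [← h5]
  simp only [P, Polynomial.map_sum, Polynomial.map_mul, Polynomial.map_pow, Polynomial.map_C,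
    Polynomial.map_X, eval_finsetSum, eval_mul, eval_C, eval_pow, eval_X]
  apply Finset.sum_congr rfl
  intro k _
  rw [mul_comm]
  rfl

include hX in
/-- Residual finiteness. -/
theorem rf : ResiduallyFinite (Pi1 X) := by
  intro g hg
  obtain ⟨m, l, n, p, q, hn, rfl⟩ := normal_form hX g
  have hN : ∀ (A : Type) [CommGroup A] (u v : A), toAb u v n = 1 := by
    intro A _ u v
    have : N X ≤ (toAb u v : Pi1 X →* A).ker := by
      unfold N
      rw [Subgroup.closure_le]
      rintro _ ⟨n, k, rfl⟩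
      show toAb u v (zt n k) = 1
      unfold zt z
      rw [map_mul, map_mul, map_mul, map_inv, map_inv, toAb_a, toAb_a]
      simp
    exact this hn
  have ht : ∀ (A : Type) [CommGroup A] (u v : A), toAb u v (t : Pi1 X) = u * v := by
    intro A _ u v
    unfold t
    rw [map_mul, toAb_a, toAb_b]
  by_cases h1 : toAb (Multiplicative.ofAdd (1 : ℤ)) 1
    ((t ^ l * a (0 : X) ^ m)⁻¹ * n * (a 0 ^ p * t ^ q)) = 1
  · by_cases h2 : toAb 1 (Multiplicative.ofAdd (1 : ℤ))
      ((t ^ l * a (0 : X) ^ m)⁻¹ * n * (a 0 ^ p * t ^ q)) = 1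
    · simp only [map_mul, map_inv, map_pow, map_zpow, hN, ht, toAb_a, mul_one, one_mul, one_pow,
        one_zpow] at h1 h2
      have e1 := congrArg Multiplicative.toAdd h1
      have e2 := congrArg Multiplicative.toAdd h2
      simp only [toAdd_mul, toAdd_inv, toAdd_pow, toAdd_zpow, toAdd_ofAdd, toAdd_one, nsmul_eq_mul,
        smul_eq_mul, mul_one] at e1 e2
      have hq : q = l := by linarith
      have hp : p = m := by linarith
      subst hq hp
      have hW : a (0 : X) ^ (m : ℤ) * t ^ (l : ℤ) = t ^ l * a 0 ^ m := by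
        rw [zpow_natCast, zpow_natCast]
        exact (Commute.pow_pow (t_comm hX).symm m l : Commute (a (0 : X) ^ m) (t ^ l))
      rw [hW] at hg ⊢
      have hn1 : n ≠ 1 := by
        rintro rfl
        apply hg
        group
      obtain ⟨c, K, -, rfl⟩ := exists_Q hX hn
      obtain ⟨k₀, hk, hc⟩ : ∃ k₀ < K, c k₀ ≠ 0 := by
        by_contra hcon
        push Not at hcon
        exact hn1 (Q_one hX hcon)
      obtain ⟨Q', i1, i2, f, hf⟩ := exists_rep hX hk hc
      refine ⟨Q', i1, i2, f, fun h => hf ?_⟩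
      rw [map_mul, map_mul, map_inv] at h
      have := congrArg (fun y => f (t ^ l * a 0 ^ m) * y * (f (t ^ l * a 0 ^ m))⁻¹) h
      simpa [mul_assoc] using this
    · exact exists_of_int _ h2
  · exact exists_of_int _ h1

end

/-- If every element of `X` has order at most two, then the group of the complex is residually
finite; in particular there is a finite group `X` of order larger than two such that this group is
residually finite. -/
theorem result :
    (∀ (X : Type u) [AddCommGroup X], (∀ i : X, i + i = 0) → ResiduallyFinite (Pi1 X)) ∧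
    ∃ (X : Type) (_ : AddCommGroup X) (_ : Finite X), 2 < Nat.card X ∧
      ResiduallyFinite (Pi1 X) := by
  refine ⟨fun X _ hX => rf hX, ZMod 2 × ZMod 2, inferInstance, inferInstance, ?_, rf ?_⟩
  · simp
  · decide

end Pool.Agent.Results.MP_4d6048_al.ElementaryTwoGroups
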